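import Mathlib

set_option autoImplicit false

namespace Pool.Agent.H.MP_31a5b6_al

open Filter Hyperreal

lemma sat (a b : ℕ → ℝ*) (h : ∀ m n, a m < b n) : ∃ x, ∀ n, a n < x ∧ x < b n := by
  classical
  choose A hA using fun n => ofSeq_surjective (a n)
  choose B hB using fun n => ofSeq_surjective (b n)
  let p : ℕ → ℕ → Prop := fun i k => ∀ m ≤ k, ∀ n ≤ k, A m i < B n i
  have ex : ∀ i k, p i k → ∃ x, ∀ n ≤ k, A n i < x ∧ x < B n i := fun i k hp => by
    obtain ⟨m, hm, h1⟩ := (Finset.Iic k).exists_max_image (A · i) ⟨0, by simp⟩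
    obtain ⟨n, hn, h2⟩ := (Finset.Iic k).exists_min_image (B · i) ⟨0, by simp⟩
    obtain ⟨x, x1, x2⟩ := exists_between (hp m (by simpa using hm) n (by simpa using hn))
    exact ⟨x, fun j hj => ⟨(h1 j (by simpa using hj)).trans_lt x1,
      x2.trans_le (h2 j (by simpa using hj))⟩⟩
  choose! X hX using ex
  refine ⟨ofSeq fun i => X i (Nat.findGreatest (p i) i), fun n => ?_⟩
  have e1 : ∀ᶠ i in hyperfilter ℕ, p i n := by
    simp only [p, ← Finset.mem_Iic, eventually_all_finset]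
    intro m _ j _
    rw [← ofSeq_lt_ofSeq, hA, hB]; exact h m j
  have e2 : ∀ᶠ i in hyperfilter ℕ, n ≤ i :=
    Nat.hyperfilter_le_atTop (eventually_ge_atTop n)
  rw [← hA, ← hB, ofSeq_lt_ofSeq, ofSeq_lt_ofSeq, ← eventually_and]
  filter_upwards [e1, e2] with i h1 h2
  exact hX i _ (Nat.findGreatest_spec h2 h1) n (Nat.le_findGreatest h2 h1)

lemma below (b : ℕ → ℝ*) : ∃ x, ∀ n, x < b n := by
  classical
  choose B hB using fun n => ofSeq_surjective (b n)
  refine ⟨ofSeq fun i => (Finset.Iic i).inf' ⟨0, by simp⟩ (B · i) - 1, fun n => ?_⟩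
  rw [← hB, ofSeq_lt_ofSeq]
  filter_upwards [Nat.hyperfilter_le_atTop (eventually_ge_atTop n)] with i hi
  exact (sub_one_lt _).trans_le (Finset.inf'_le (B · i) (by simpa using hi))

abbrev K := ℝ*

def Loc (f : K → K) : Prop := ∀ b : ℕ → K, StrictAnti b →
  ∃ (x l m : K) (N : ℕ), (∀ n, x < b n) ∧ ∀ y, x ≤ y → y ≤ b N → f y = l * y + m

lemma loc_aff (l m : K) : Loc fun y => l * y + m := fun b _ => by
  obtain ⟨x, hx⟩ := below b
  exact ⟨x, l, m, 0, hx, fun _ _ _ => rfl⟩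

lemma loc_comp (f : K → K) (g : K ≃o K) (hf : Loc f) (hg : Loc g) : Loc fun y => f (g y) :=
  fun b hb => by
  obtain ⟨x, l, m, N, h1, h2⟩ := hg b hb
  obtain ⟨x', l', m', N', h3, h4⟩ := hf _ (g.strictMono.comp_strictAnti hb)
  refine ⟨max x (g.symm x'), l' * l, l' * m + m', max N N', fun n => max_lt (h1 n)
    (g.symm_apply_lt.2 (h3 n)), fun y h5 h6 => ?_⟩
  dsimp only
  rw [h4 _ (g.symm_apply_le.1 (le_of_max_le_right h5))
    (g.monotone (h6.trans (hb.antitone (le_max_right _ _)))),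
    h2 y (le_of_max_le_left h5) (h6.trans (hb.antitone (le_max_left _ _)))]
  ring

lemma loc_symm (g : K ≃o K) (hg : Loc g) : Loc g.symm := fun b hb => by
  obtain ⟨x, l, m, N, h1, h2⟩ := hg _ (g.symm.strictMono.comp_strictAnti hb)
  have l0 : l ≠ 0 := by
    rintro rfl
    exact (h1 N).ne (g.injective (by rw [h2 x le_rfl (h1 N).le, h2 _ (h1 N).le le_rfl]; simp))
  refine ⟨g x, l⁻¹, -l⁻¹ * m, N, fun n => g.lt_symm_apply.1 (h1 n), fun y h3 h4 => ?_⟩
  have := h2 _ (g.le_symm_apply.2 h3) (g.symm.monotone h4)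
  rw [g.apply_symm_apply] at this
  field_simp
  linear_combination -this

lemma loc_sel (f g h : K → K) (hf : Loc f) (hg : Loc g)
    (hP : ∀ b : ℕ → K, StrictAnti b → ∃ x N, (∀ n, x < b n) ∧
      ((∀ y, x ≤ y → y ≤ b N → h y = f y) ∨ ∀ y, x ≤ y → y ≤ b N → h y = g y)) : Loc h :=
  fun b hb => by
  obtain ⟨x, N, h1, h2 | h2⟩ := hP b hb
  · obtain ⟨x', l, m, N', h3, h4⟩ := hf b hb
    exact ⟨max x x', l, m, max N N', fun n => max_lt (h1 n) (h3 n), fun y h5 h6 => by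
      rw [h2 y (le_of_max_le_left h5) (h6.trans (hb.antitone (le_max_left _ _))),
        h4 y (le_of_max_le_right h5) (h6.trans (hb.antitone (le_max_right _ _)))]⟩
  · obtain ⟨x', l, m, N', h3, h4⟩ := hg b hb
    exact ⟨max x x', l, m, max N N', fun n => max_lt (h1 n) (h3 n), fun y h5 h6 => by
      rw [h2 y (le_of_max_le_left h5) (h6.trans (hb.antitone (le_max_left _ _))),
        h4 y (le_of_max_le_right h5) (h6.trans (hb.antitone (le_max_right _ _)))]⟩

lemma cmp (f g : K → K) (hf : Loc f) (hg : Loc g) (b : ℕ → K) (hb : StrictAnti b) :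
    ∃ x N, (∀ n, x < b n) ∧
      ((∀ y, x ≤ y → y ≤ b N → f y ≤ g y) ∨ ∀ y, x ≤ y → y ≤ b N → g y ≤ f y) := by
  obtain ⟨x, l, m, N, h1, h2⟩ := hf b hb
  obtain ⟨x', l', m', N', h3, h4⟩ := hg b hb
  have key : ∃ z M, (∀ n, z < b n) ∧ ((∀ y, z ≤ y → y ≤ b M → l * y + m ≤ l' * y + m') ∨
      ∀ y, z ≤ y → y ≤ b M → l' * y + m' ≤ l * y + m) := by
    rcases lt_trichotomy l l' with h | rfl | h
    · by_cases c : ∃ n, b n ≤ (m - m') / (l' - l)
      · obtain ⟨n, c⟩ := c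
        refine ⟨x, n, h1, .inr fun y _ p => ?_⟩
        have := (le_div_iff₀ (sub_pos.2 h)).1 (p.trans c)
        linarith
      · push Not at c
        refine ⟨_, 0, c, .inl fun y p _ => ?_⟩
        have := (div_le_iff₀ (sub_pos.2 h)).1 p
        linarith
    · exact ⟨x, 0, h1, (le_total m m').imp (fun p y _ _ => by linarith) fun p y _ _ => by linarith⟩
    · by_cases c : ∃ n, b n ≤ (m' - m) / (l - l')
      · obtain ⟨n, c⟩ := c
        refine ⟨x, n, h1, .inl fun y _ p => ?_⟩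
        have := (le_div_iff₀ (sub_pos.2 h)).1 (p.trans c)
        linarith
      · push Not at c
        refine ⟨_, 0, c, .inr fun y p _ => ?_⟩
        have := (div_le_iff₀ (sub_pos.2 h)).1 p
        linarith
  obtain ⟨z, M, h5, h6⟩ := key
  have : ∀ y, max z (max x x') ≤ y → y ≤ b (max M (max N N')) →
      z ≤ y ∧ y ≤ b M ∧ f y = l * y + m ∧ g y = l' * y + m' := fun y p q => by
    simp only [max_le_iff] at p
    exact ⟨p.1, q.trans (hb.antitone (by simp)), h2 y p.2.1 (q.trans (hb.antitone (by simp))),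
      h4 y p.2.2 (q.trans (hb.antitone (by simp)))⟩
  refine ⟨max z (max x x'), max M (max N N'), fun n => by simp [h1, h3, h5],
    h6.imp (fun r y p q => ?_) fun r y p q => ?_⟩ <;> obtain ⟨a1, a2, a3, a4⟩ := this y p q <;>
    rw [a3, a4] <;> exact r y a1 a2

lemma loc_max (f g : K → K) (hf : Loc f) (hg : Loc g) : Loc fun y => max (f y) (g y) :=
  loc_sel g f _ hg hf fun b hb => by
    obtain ⟨x, N, h1, h2⟩ := cmp f g hf hg b hb
    exact ⟨x, N, h1, h2.imp (fun r y p q => max_eq_right (r y p q))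
      fun r y p q => max_eq_left (r y p q)⟩

lemma loc_min (f g : K → K) (hf : Loc f) (hg : Loc g) : Loc fun y => min (f y) (g y) :=
  loc_sel f g _ hf hg fun b hb => by
    obtain ⟨x, N, h1, h2⟩ := cmp f g hf hg b hb
    exact ⟨x, N, h1, h2.imp (fun r y p q => min_eq_left (r y p q))
      fun r y p q => min_eq_right (r y p q)⟩

noncomputable def mx (f g : K ≃o K) : K ≃o K :=
  StrictMono.orderIsoOfSurjective (fun x => max (f x) (g x))
    (fun _ _ h => max_lt_max (f.strictMono h) (g.strictMono h)) fun y => by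
      rcases le_total (f.symm y) (g.symm y) with h | h
      · exact ⟨f.symm y, by simpa using g.le_symm_apply.1 h⟩
      · exact ⟨g.symm y, by simpa using f.le_symm_apply.1 h⟩

noncomputable def mn (f g : K ≃o K) : K ≃o K :=
  StrictMono.orderIsoOfSurjective (fun x => min (f x) (g x))
    (fun _ _ h => min_lt_min (f.strictMono h) (g.strictMono h)) fun y => by
      rcases le_total (f.symm y) (g.symm y) with h | h
      · exact ⟨g.symm y, by simpa using f.symm_apply_le.1 h⟩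
      · exact ⟨f.symm y, by simpa using g.symm_apply_le.1 h⟩

noncomputable def af (l m : K) (h : 0 < l) : K ≃o K :=
  (OrderIso.mulLeft₀ l h).trans (OrderIso.addRight m)

def Bd (f : K → K) : Prop := ∃ s t, ∀ x, x < s ∨ t < x → f x = x

lemma bd2 {f g : K → K} (hf : Bd f) (hg : Bd g) :
    ∃ s t, ∀ x, x < s ∨ t < x → f x = x ∧ g x = x := by
  obtain ⟨s, t, h⟩ := hf
  obtain ⟨s', t', h'⟩ := hg
  exact ⟨min s s', max t t', fun x p => ⟨h x (p.imp (·.trans_le (min_le_left _ _))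
    (le_max_left _ _).trans_lt), h' x (p.imp (·.trans_le (min_le_right _ _))
    (le_max_right _ _).trans_lt)⟩⟩

def L : Subgroup (K ≃o K) where
  carrier := {f | Loc f ∧ Bd f}
  one_mem' := ⟨by simpa using! loc_aff 1 0, 0, 0, fun _ _ => rfl⟩
  mul_mem' {f g} hf hg := ⟨loc_comp f g hf.1 hg.1, by
    obtain ⟨s, t, h⟩ := bd2 hf.2 hg.2
    exact ⟨s, t, fun x p => by simp [h x p]⟩⟩
  inv_mem' {f} hf := ⟨loc_symm f hf.1, by
    obtain ⟨s, t, h⟩ := hf.2
    exact ⟨s, t, fun x p => f.symm_apply_eq.2 (h x p).symm⟩⟩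

lemma trans2 (r1 r2 s1 s2 : K) (hr : r1 < r2) (hs : s1 < s2) : ∃ f ∈ L, f r1 = s1 ∧ f r2 = s2 := by
  obtain ⟨M, hM⟩ : ∃ M, 2 * (|r1| + |r2| + |s1| + |s2|) ≤ M := ⟨_, le_rfl⟩
  have hl := div_pos (sub_pos.2 hs) (sub_pos.2 hr)
  let f := mx (mn (af _ (s1 - (s2 - s1) / (r2 - r1) * r1) hl)
    (mx 1 (mn (af 2 M two_pos) (af 2⁻¹ (M / 2) (by norm_num)))))
    (mn 1 (mx (af 2 (-M) two_pos) (af 2⁻¹ (-M / 2) (by norm_num))))
  have e : ∀ x, f x = max (min ((s2 - s1) / (r2 - r1) * x + (s1 - (s2 - s1) / (r2 - r1) * r1))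
      (max x (min (2 * x + M) (2⁻¹ * x + M / 2))))
      (min x (max (2 * x + -M) (2⁻¹ * x + -M / 2))) := fun _ => rfl
  have i : Loc fun y => y := by simpa using! loc_aff 1 0
  have a1 := abs_nonneg r1
  have a2 := abs_nonneg r2
  have a3 := abs_nonneg s1
  have a4 := abs_nonneg s2
  have key : ∀ r s : K, 2 * (|r| + |s|) ≤ M → max (min s (max r (min (2 * r + M) (2⁻¹ * r + M / 2))))
      (min r (max (2 * r + -M) (2⁻¹ * r + -M / 2))) = s := fun r s h => by
    have := le_abs_self r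
    have := le_abs_self s
    have := neg_abs_le r
    have := neg_abs_le s
    rw [min_eq_left (le_max_of_le_right (le_min (by linarith) (by linarith))),
      max_eq_left (min_le_of_right_le (max_le (by linarith) (by linarith)))]
  refine ⟨f, ⟨?_, -M, M, fun x p => ?_⟩, ?_, ?_⟩
  · rw [show (f : K → K) = _ from funext e]
    exact loc_max _ _ (loc_min _ _ (loc_aff _ _) (loc_max _ _ i (loc_min _ _ (loc_aff _ _)
      (loc_aff _ _)))) (loc_min _ _ i (loc_max _ _ (loc_aff _ _) (loc_aff _ _)))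
  · rw [e, max_eq_left (a := x), min_eq_left (a := x), max_eq_right (min_le_right _ _)]
    · rcases p with p | p
      · exact le_max_of_le_right (by linarith)
      · exact le_max_of_le_left (by linarith)
    · rcases p with p | p
      · exact min_le_of_left_le (by linarith)
      · exact min_le_of_right_le (by linarith)
  · rw [e, add_sub_cancel, key _ _ (by linarith)]
  · have := (sub_pos.2 hr).ne'
    rw [e, show (s2 - s1) / (r2 - r1) * r2 + (s1 - (s2 - s1) / (r2 - r1) * r1) = s2 by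
      field_simp; ring, key _ _ (by linarith)]

open Classical in
noncomputable def res (f : K ≃o K) (A : Set K) (h : ∀ x, f x ∈ A ↔ x ∈ A)
    (c : ∀ x y, x < y → (x ∈ A ↔ y ∈ A) ∨ ∀ u v, (u ∈ A ↔ x ∈ A) → (v ∈ A ↔ y ∈ A) → u < v) :
    K ≃o K :=
  StrictMono.orderIsoOfSurjective (fun x => if x ∈ A then f x else x)
    (fun x y p => by
      rcases c x y p with q | q
      · by_cases r : x ∈ A <;> simp [r, ← q, p]
      · apply q <;> dsimp only <;> split_ifs <;> simp [h]) fun y => by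
      by_cases r : y ∈ A
      · exact ⟨f.symm y, by simp [← h (f.symm y), r]⟩
      · exact ⟨y, by simp [r]⟩

lemma split (f : K ≃o K) (hf : f ∈ L) (p : ∀ t, t ≤ f t) (n1 : f ≠ 1) :
    ∃ g ∈ L, ∃ h ∈ L, g ≠ 1 ∧ h ≠ 1 ∧ (∀ t, min (g t) (h t) = t) ∧ ∀ t, max (g t) (h t) = f t := by
  classical
  obtain ⟨y, hy⟩ : ∃ y, y < f y := by
    by_contra! c
    exact n1 (RelIso.ext fun x => (c x).antisymm (p x))
  have sa : StrictAnti fun n => f.symm^[n] y := strictAnti_nat_of_succ_lt fun n => by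
    rw [Function.iterate_succ_apply]
    exact f.symm.strictMono.iterate n (f.symm_apply_lt.2 hy)
  obtain ⟨x, hx, xb⟩ : ∃ x, f x ≠ x ∧ ∀ n, x < f.symm^[n] y := by
    obtain ⟨x, l, m, N, h1, h2⟩ := hf.1 _ sa
    obtain ⟨x', h3⟩ := sat (fun _ => x) _ fun _ => h1
    by_contra! c
    have e1 : f x = x := by_contra fun q => (c x q).elim fun n => (h1 n).not_ge
    have e2 : f x' = x' := by_contra fun q => (c x' q).elim fun n => (h3 n).2.not_ge
    rw [h2 x le_rfl (h1 N).le] at e1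
    rw [h2 x' (h3 0).1.le (h3 N).2.le] at e2
    have l1 : l = 1 := mul_right_cancel₀ (sub_pos.2 (h3 0).1).ne' (by linear_combination e2 - e1)
    have := h2 _ (h1 (N + 1)).le (sa.antitone N.le_succ)
    rw [Function.iterate_succ_apply', f.apply_symm_apply, ← Function.iterate_succ_apply' f.symm, l1,
      show m = 0 by rw [l1] at e1; linear_combination e1, one_mul, add_zero] at this
    exact (sa N.lt_succ_self).ne' this
  let A : Set K := {z | ∃ n, z ≤ f^[n] x}
  have hA : ∀ z, f z ∈ A ↔ z ∈ A := fun z => ⟨fun ⟨n, q⟩ => ⟨n, (p z).trans q⟩,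
    fun ⟨n, q⟩ => ⟨n + 1, by rw [Function.iterate_succ_apply']; exact f.monotone q⟩⟩
  have lo : ∀ {u v}, u ∈ A → v ∉ A → u < v := fun ⟨n, q⟩ r => lt_of_not_ge fun s => r ⟨n, s.trans q⟩
  have yA : y ∉ A := fun ⟨n, q⟩ => by
    have := f.strictMono.iterate n (xb n)
    rw [(Function.RightInverse.iterate f.apply_symm_apply n) y] at this
    exact this.not_ge q
  have cA : ∀ x y, x < y → (x ∈ A ↔ y ∈ A) ∨ x ∈ A ∧ y ∉ A := fun x y q => by
    by_cases r : y ∈ A
    · exact .inl ⟨fun _ => r, fun _ => by_contra fun s => (lo r s).not_gt q⟩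
    · tauto
  have pc : ∀ b : ℕ → K, StrictAnti b → ∃ x N, (∀ n, x < b n) ∧
      ((∀ y, x ≤ y → y ≤ b N → y ∈ A) ∨ ∀ y, x ≤ y → y ≤ b N → y ∉ A) := fun b _ => by
    by_cases c : ∃ n, b n ∈ A
    · obtain ⟨n, c⟩ := c
      obtain ⟨z, hz⟩ := below b
      exact ⟨z, n, hz, .inl fun y _ q => by_contra fun s => (lo c s).not_ge q⟩
    · push Not at c
      obtain ⟨z, hz⟩ := sat (fun n => f^[n] x) b fun m n => lo ⟨m, le_rfl⟩ (c n)
      exact ⟨z, 0, fun n => (hz n).2, .inr fun y q _ ⟨n, r⟩ => (hz n).1.not_ge (q.trans r)⟩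
  have i : Loc fun y => y := by simpa using! loc_aff 1 0
  obtain ⟨s, t, bd⟩ := hf.2
  let g := res f A hA fun x y q => (cA x y q).imp_right fun r u v a b => lo (a.2 r.1) (by tauto)
  let h := res f Aᶜ (by simp [hA]) fun x y q => (cA x y q).imp (by simp; tauto)
    fun r u v a b => lo (by simp at a; tauto) (by simp at b; tauto)
  have eg : ∀ z, g z = if z ∈ A then f z else z := fun _ => rfl
  have eh : ∀ z, h z = if z ∈ A then z else f z := fun z => by
    by_cases r : z ∈ A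
    · rw [if_pos r]; exact if_neg (not_not.2 r)
    · rw [if_neg r]; exact if_pos r
  refine ⟨g, ⟨loc_sel f _ _ hf.1 i fun b hb => ?_, s, t, fun z q => ?_⟩, h,
    ⟨loc_sel _ f _ i hf.1 fun b hb => ?_, s, t, fun z q => ?_⟩, fun q => ?_,
    fun q => ?_, fun z => ?_, fun z => ?_⟩
  · obtain ⟨z, N, q, r⟩ := pc b hb
    exact ⟨z, N, q, r.imp (fun r w a b => by simp [eg, r w a b]) fun r w a b => by simp [eg, r w a b]⟩
  · simp [eg, bd z q]
  · obtain ⟨z, N, q, r⟩ := pc b hb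
    exact ⟨z, N, q, r.imp (fun r w a b => by simp [eh, r w a b]) fun r w a b => by simp [eh, r w a b]⟩
  · simp [eh, bd z q]
  · have := eg x
    rw [q, if_pos ⟨0, le_rfl⟩] at this
    exact hx this.symm
  · have := eh y
    rw [q, if_neg yA] at this
    exact hy.ne this
  · rw [eg, eh]; split_ifs <;> simp [p]
  · rw [eg, eh]; split_ifs <;> simp [p]

theorem main : ∃ (T : Type) (_ : LinearOrder T), (∃ a b c : T, a < b ∧ b < c) ∧
    ∃ L : Subgroup (T ≃o T),
      (∀ f ∈ L, ∀ g ∈ L, (∃ h ∈ L, ∀ t, h t = max (f t) (g t)) ∧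
        ∃ h ∈ L, ∀ t, h t = min (f t) (g t)) ∧
      (∀ r₁ r₂ s₁ s₂ : T, r₁ < r₂ → s₁ < s₂ → ∃ f ∈ L, f r₁ = s₁ ∧ f r₂ = s₂) ∧
      (∀ f ∈ L, ∃ t₁ t₂ : T, ∀ s, s < t₁ ∨ t₂ < s → f s = s) ∧
      ∀ f ∈ L, (∀ t, t ≤ f t) → f ≠ 1 → ∃ f₁ ∈ L, ∃ f₂ ∈ L, f₁ ≠ 1 ∧ f₂ ≠ 1 ∧
        (∀ t, min (f₁ t) (f₂ t) = t) ∧ ∀ t, max (f₁ t) (f₂ t) = f t := by
  refine ⟨K, inferInstance, ⟨0, 1, 2, one_pos, one_lt_two⟩, L, fun f hf g hg => ?_, trans2,
    fun f hf => hf.2, split⟩
  obtain ⟨s, t, h⟩ := bd2 hf.2 hg.2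
  exact ⟨⟨mx f g, ⟨loc_max f g hf.1 hg.1, s, t, fun x p => by
      change max (f x) (g x) = x; simp [h x p]⟩, fun _ => rfl⟩,
    mn f g, ⟨loc_min f g hf.1 hg.1, s, t, fun x p => by
      change min (f x) (g x) = x; simp [h x p]⟩, fun _ => rfl⟩

end Pool.Agent.H.MP_31a5b6_al
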